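import Pool.Agent.Helper51.SDL.Goals

/-! Project SD (MP_fc6b1e_nt), packet SDL-HXG (helper79): the first inequality, abstract form. -/

set_option autoImplicit false

namespace Pool.Agent.Helper79.SDL.HXG

open Pool.Agent.Helper51.REC Pool.Agent.Helper51.SDL Subgroup

section basic

variable {M : Type} [CommGroup M] (σ : M ≃* M) (p : ℕ)

theorem nm_apply (x : M) : nmG p σ x = ∏ i ∈ Finset.range p, (σ ^ i : MulAut M) x := by
  rw [nmG, MonoidHom.finsetProd_apply]
  rfl

theorem df_apply (x : M) : dfG σ x = x / σ x := rfl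

theorem mem_fix (x : M) : x ∈ fixG σ ↔ σ x = x := Iff.rfl

theorem nm_sigma (hσ : ∀ x, (σ ^ p : MulAut M) x = x) (x : M) : nmG p σ (σ x) = nmG p σ x := by
  rw [nm_apply, nm_apply]
  have h1 : ∀ i : ℕ, (σ ^ i : MulAut M) (σ x) = (σ ^ (i + 1) : MulAut M) x := by
    intro i
    rw [pow_succ, MulAut.mul_apply]
  rw [Finset.prod_congr rfl (fun i _ => h1 i)]
  have h2 := Finset.prod_range_succ' (fun i => (σ ^ i : MulAut M) x) p
  rw [Finset.prod_range_succ, hσ x] at h2
  simp only [pow_zero, MulAut.one_apply] at h2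
  exact (mul_right_cancel h2).symm

theorem equiv_pow {A B : Type} [CommGroup A] [CommGroup B] (f : A →* B) (a : A ≃* A) (b : B ≃* B)
    (h : ∀ x, f (a x) = b (f x)) (i : ℕ) (x : A) :
    f ((a ^ i : MulAut A) x) = (b ^ i : MulAut B) (f x) := by
  induction i generalizing x with
  | zero => rfl
  | succ i ih =>
    rw [pow_succ, pow_succ, MulAut.mul_apply, MulAut.mul_apply, ih]
    exact congrArg _ (h x)

theorem equiv_nm {A B : Type} [CommGroup A] [CommGroup B] (f : A →* B) (a : A ≃* A) (b : B ≃* B)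
    (h : ∀ x, f (a x) = b (f x)) (x : A) : f (nmG p a x) = nmG p b (f x) := by
  rw [nm_apply, nm_apply, map_prod]
  exact Finset.prod_congr rfl fun i _ => equiv_pow f a b h i x

theorem equiv_df {A B : Type} [CommGroup A] [CommGroup B] (f : A →* B) (a : A ≃* A) (b : B ≃* B)
    (h : ∀ x, f (a x) = b (f x)) (x : A) : f (dfG a x) = dfG b (f x) := by
  rw [df_apply, df_apply, map_div, h]

theorem sigma_nm (hσ : ∀ x, (σ ^ p : MulAut M) x = x) (x : M) : σ (nmG p σ x) = nmG p σ x := by
  have h0 : σ (nmG p σ x) = nmG p σ (σ x) :=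
    equiv_nm p σ.toMonoidHom σ σ (fun _ => rfl) x
  rw [h0, nm_sigma σ p hσ]

theorem ker_df : (dfG σ).ker = fixG σ := by
  ext x
  rw [MonoidHom.mem_ker, df_apply, mem_fix, div_eq_one]
  exact eq_comm

theorem ker_nm (hσ : ∀ x, (σ ^ p : MulAut M) x = x)
    (h : ∀ v, nmG p σ v = 1 → ∃ y, v = dfG σ y) : (nmG p σ).ker = (dfG σ).range := by
  ext x
  rw [MonoidHom.mem_ker]
  constructor
  · intro hx
    obtain ⟨y, hy⟩ := h x hx
    exact ⟨y, hy.symm⟩
  · rintro ⟨y, rfl⟩
    rw [df_apply, map_div, nm_sigma σ p hσ, div_self']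

end basic

/-- the index of two subgroups containing the kernel is that of their images -/
lemma relIndex_map {A B : Type} [CommGroup A] [CommGroup B] (f : A →* B) {H K : Subgroup A}
    (hH : f.ker ≤ H) (hK : f.ker ≤ K) : (H.map f).relIndex (K.map f) = H.relIndex K := by
  rw [relIndex_map_map, sup_eq_left.2 hH, sup_eq_left.2 hK]

theorem t : Pool.Agent.Helper51.SDL.S_HXG := by
  intro n V D E _ _ _ s u τ j φ hn hs hu hφ hj hex hjt hV hD hP hB hA
  -- notation
  have hNφ := equiv_nm n φ s u hφ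
  have hdφ := equiv_df φ s u hφ
  have hNj := equiv_nm n j τ s hjt
  have hdj := equiv_df j τ s hjt
  have hkerφ : φ.ker = j.range := by
    ext v
    rw [MonoidHom.mem_ker, hex v]
  have hkV := ker_nm s n hs hV
  have hkD := ker_nm u n hu hD
  have hdV := ker_df s
  have hdD := ker_df u
  have hsj : ∀ v, v ∈ fixG s → ∀ e, j e = v → e ∈ fixG τ := by
    rintro v hv e rfl
    rw [mem_fix] at hv ⊢
    apply hj
    rw [hjt, hv]
  have hP' : ∀ K : Subgroup D, φ.range.relIndex K ≠ 0 := fun K h0 =>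
    hP (index_eq_zero_of_relIndex_eq_zero h0)
  -- (a)
  have ha : ((fixG s).map φ).relIndex (φ.range ⊓ fixG u) =
      (dfG τ).range.relIndex (nmG n τ).ker := by
    have e1 : φ.range ⊓ fixG u = ((fixG u).comap φ).map φ := by
      rw [map_comap_eq]
    have e2 : (fixG u).comap φ = j.range.comap (dfG s) := by
      ext v
      rw [mem_comap, mem_comap, ← hex, hdφ, ← MonoidHom.mem_ker, hdD]
    have hk1 : φ.ker ≤ (fixG u).comap φ := by
      intro v hv
      rw [mem_comap, (MonoidHom.mem_ker).1 hv]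
      exact one_mem _
    have hk2 : (dfG s).ker ≤ (fixG u).comap φ := by
      intro v hv
      rw [e2, mem_comap, (MonoidHom.mem_ker).1 hv]
      exact one_mem _
    have e3 : ((fixG s).map φ).relIndex (φ.range ⊓ fixG u) =
        (fixG s ⊔ φ.ker).relIndex ((fixG u).comap φ) := by
      rw [e1, relIndex_map_map, sup_eq_left.2 hk1]
    have e4 : ((fixG s ⊔ φ.ker).map (dfG s)).relIndex (((fixG u).comap φ).map (dfG s)) =
        (fixG s ⊔ φ.ker).relIndex ((fixG u).comap φ) :=
      relIndex_map (dfG s) (by rw [hdV]; exact le_sup_left) hk2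
    have e5 : (fixG s ⊔ φ.ker).map (dfG s) = (dfG τ).range.map j := by
      rw [Subgroup.map_sup, ← hdV, (Subgroup.map_eq_bot_iff _).2 le_rfl, bot_sup_eq, hkerφ]
      ext v
      constructor
      · rintro ⟨_, ⟨e, rfl⟩, rfl⟩
        exact ⟨dfG τ e, ⟨e, rfl⟩, hdj e⟩
      · rintro ⟨_, ⟨e, rfl⟩, rfl⟩
        exact ⟨j e, ⟨e, rfl⟩, (hdj e).symm⟩
    have e6 : ((fixG u).comap φ).map (dfG s) = (nmG n τ).ker.map j := by
      rw [e2, map_comap_eq]
      ext v
      constructor
      · rintro ⟨h1, ⟨e, rfl⟩⟩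
        refine ⟨e, ?_, rfl⟩
        rw [← hkV] at h1
        change nmG n τ e = 1
        apply hj
        rw [hNj, map_one]
        exact h1
      · rintro ⟨e, he, rfl⟩
        refine ⟨?_, ⟨e, rfl⟩⟩
        rw [← hkV]
        change nmG n s (j e) = 1
        rw [← hNj, (MonoidHom.mem_ker).1 he, map_one]
    rw [e3, ← e4, e5, e6, relIndex_map_map_of_injective _ _ hj]
  -- (b)
  have hb : (φ.range.map (dfG u)).relIndex (φ.range ⊓ (nmG n u).ker) ≠ 0 ∧
      (φ.range.map (dfG u)).relIndex (φ.range ⊓ (nmG n u).ker) ≤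
        (nmG n τ).range.relIndex (fixG τ) := by
    have e1 : φ.range ⊓ (nmG n u).ker = ((nmG n u).ker.comap φ).map φ := by
      rw [map_comap_eq]
    have e2 : (nmG n u).ker.comap φ = j.range.comap (nmG n s) := by
      ext v
      rw [mem_comap, mem_comap, ← hex, hNφ, ← MonoidHom.mem_ker]
    have e0 : φ.range.map (dfG u) = (dfG s).range.map φ := by
      ext x
      constructor
      · rintro ⟨_, ⟨v, rfl⟩, rfl⟩
        exact ⟨dfG s v, ⟨v, rfl⟩, hdφ v⟩
      · rintro ⟨_, ⟨v, rfl⟩, rfl⟩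
        exact ⟨φ v, ⟨v, rfl⟩, (hdφ v).symm⟩
    have hk1 : φ.ker ≤ (nmG n u).ker.comap φ := by
      intro v hv
      rw [mem_comap, (MonoidHom.mem_ker).1 hv]
      exact one_mem _
    have hk2 : (nmG n s).ker ≤ (nmG n u).ker.comap φ := by
      intro v hv
      rw [e2, mem_comap, (MonoidHom.mem_ker).1 hv]
      exact one_mem _
    have e3 : (φ.range.map (dfG u)).relIndex (φ.range ⊓ (nmG n u).ker) =
        ((dfG s).range ⊔ φ.ker).relIndex ((nmG n u).ker.comap φ) := by
      rw [e0, e1, relIndex_map_map, sup_eq_left.2 hk1]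
    have e4 : (((dfG s).range ⊔ φ.ker).map (nmG n s)).relIndex
        (((nmG n u).ker.comap φ).map (nmG n s)) =
        ((dfG s).range ⊔ φ.ker).relIndex ((nmG n u).ker.comap φ) :=
      relIndex_map (nmG n s) (by rw [hkV]; exact le_sup_left) hk2
    have e5 : ((dfG s).range ⊔ φ.ker).map (nmG n s) = (nmG n τ).range.map j := by
      rw [Subgroup.map_sup, ← hkV, (Subgroup.map_eq_bot_iff _).2 le_rfl, bot_sup_eq, hkerφ]
      ext v
      constructor
      · rintro ⟨_, ⟨e, rfl⟩, rfl⟩
        exact ⟨nmG n τ e, ⟨e, rfl⟩, hNj e⟩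
      · rintro ⟨_, ⟨e, rfl⟩, rfl⟩
        exact ⟨j e, ⟨e, rfl⟩, (hNj e).symm⟩
    have e6 : ((nmG n u).ker.comap φ).map (nmG n s) ≤ (fixG τ).map j := by
      rw [e2, map_comap_eq]
      rintro v ⟨⟨w, hw⟩, ⟨e, he⟩⟩
      refine ⟨e, hsj v ?_ e he, he⟩
      rw [mem_fix, ← hw]
      exact sigma_nm s n hs w
    have e7 : ((nmG n τ).range.map j).relIndex ((fixG τ).map j) =
        (nmG n τ).range.relIndex (fixG τ) := relIndex_map_map_of_injective _ _ hj
    rw [e3, ← e4, e5, ← e7]
    rw [← e7] at hB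
    refine ⟨fun h0 => hB ?_, relIndex_le_of_le_right e6 hB⟩
    exact relIndex_eq_zero_of_le_right e6 h0
  -- (c)
  have hc : (φ.range.map (nmG n u)).relIndex (nmG n u).range =
      φ.range.relIndex (φ.range.comap (dfG u)) := by
    have e1 : (φ.range.map (nmG n u)).relIndex (nmG n u).range =
        (φ.range ⊔ (dfG u).range).index := by
      rw [MonoidHom.range_eq_map (nmG n u), relIndex_map_map, top_sup_eq, relIndex_top_right, hkD]
    have hle : φ.range ≤ φ.range.comap (dfG u) := by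
      rintro _ ⟨v, rfl⟩
      exact ⟨dfG s v, hdφ v⟩
    have e2 := relIndex_mul_index hle
    have e3 : (φ.range.comap (dfG u)).index = φ.range.relIndex (dfG u).range := index_comap _ _
    have e4 : φ.range.relIndex ((dfG u).range ⊔ φ.range) = φ.range.relIndex (dfG u).range :=
      relIndex_sup_right _ _
    have e5 := relIndex_mul_index (le_sup_right : φ.range ≤ (dfG u).range ⊔ φ.range)
    rw [e4] at e5
    rw [e3] at e2
    rw [e1, sup_comm]
    have hne := hP' (dfG u).range
    have e6 : φ.range.relIndex (dfG u).range * ((dfG u).range ⊔ φ.range).index =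
        φ.range.relIndex (dfG u).range * φ.range.relIndex (φ.range.comap (dfG u)) := by
      rw [e5, ← e2, mul_comm]
    exact Nat.eq_of_mul_eq_mul_left (Nat.pos_of_ne_zero hne) e6
  -- (d)
  have hd : φ.range.relIndex (φ.range.comap (dfG u)) =
      φ.range.relIndex (fixG u) *
        (φ.range.map (dfG u)).relIndex (φ.range ⊓ (nmG n u).ker) := by
    have hle1 : φ.range ≤ fixG u ⊔ φ.range := le_sup_right
    have hfix : fixG u ≤ φ.range.comap (dfG u) := by
      rw [← hdD]
      intro v hv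
      rw [mem_comap, (MonoidHom.mem_ker).1 hv]
      exact one_mem _
    have hle2 : fixG u ⊔ φ.range ≤ φ.range.comap (dfG u) := by
      refine sup_le hfix ?_
      rintro _ ⟨v, rfl⟩
      exact ⟨dfG s v, hdφ v⟩
    have e1 := relIndex_mul_relIndex _ _ _ hle1 hle2
    have e2 : φ.range.relIndex (fixG u ⊔ φ.range) = φ.range.relIndex (fixG u) := relIndex_sup_right _ _
    have e3 : ((fixG u ⊔ φ.range).map (dfG u)).relIndex ((φ.range.comap (dfG u)).map (dfG u)) =
        (fixG u ⊔ φ.range).relIndex (φ.range.comap (dfG u)) :=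
      relIndex_map (dfG u) (by rw [hdD]; exact le_sup_left) (by rw [hdD]; exact hfix)
    have e4 : (fixG u ⊔ φ.range).map (dfG u) = φ.range.map (dfG u) := by
      rw [Subgroup.map_sup, ← hdD, (Subgroup.map_eq_bot_iff _).2 le_rfl, bot_sup_eq]
    have e5 : (φ.range.comap (dfG u)).map (dfG u) = φ.range ⊓ (nmG n u).ker := by
      rw [map_comap_eq, hkD, inf_comm]
    rw [← e1, e2, ← e3, e4, e5]
  -- (e)
  have hFP : (fixG s).map φ ≤ φ.range ⊓ fixG u := by
    rintro _ ⟨v, hv, rfl⟩
    refine ⟨⟨v, rfl⟩, ?_⟩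
    change u (φ v) = φ v
    rw [← hφ, (mem_fix s v).1 hv]
  have e1 := relIndex_mul_relIndex _ _ _ hFP inf_le_right
  have e2 : (φ.range ⊓ fixG u).relIndex (fixG u) = φ.range.relIndex (fixG u) :=
    inf_relIndex_right _ _
  rw [ha, e2] at e1
  have hND : (nmG n u).range ⊔ (fixG s).map φ ≤ fixG u := by
    refine sup_le ?_ (hFP.trans inf_le_right)
    rintro _ ⟨x, rfl⟩
    exact sigma_nm u n hu x
  have e3 := relIndex_mul_relIndex _ _ _
    (le_sup_right : (fixG s).map φ ≤ (nmG n u).range ⊔ (fixG s).map φ) hND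
  have e4 : ((fixG s).map φ).relIndex ((nmG n u).range ⊔ (fixG s).map φ) =
      ((fixG s).map φ).relIndex (nmG n u).range := relIndex_sup_right _ _
  rw [e4, ← e1] at e3
  have hp0 := hP' (fixG u)
  have hX : ((nmG n u).range ⊔ (fixG s).map φ).relIndex (fixG u) ≠ 0 := by
    intro h0
    rw [h0, mul_zero] at e3
    exact (mul_ne_zero hA hp0) e3.symm
  have hNP : φ.range.map (nmG n u) ≤ (fixG s).map φ := by
    rintro _ ⟨_, ⟨v, rfl⟩, rfl⟩
    exact ⟨nmG n s v, sigma_nm s n hs v, hNφ v⟩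
  have hcne : (φ.range.map (nmG n u)).relIndex (nmG n u).range ≠ 0 := by
    rw [hc]
    exact hP' _
  have e5 : ((fixG s).map φ).relIndex (nmG n u).range ≤
      φ.range.relIndex (fixG u) * (nmG n τ).range.relIndex (fixG τ) := by
    refine (relIndex_le_of_le_left hNP hcne).trans ?_
    rw [hc, hd]
    exact Nat.mul_le_mul_left _ hb.2
  refine ⟨hX, ?_⟩
  have e6 : φ.range.relIndex (fixG u) * (dfG τ).range.relIndex (nmG n τ).ker ≤
      φ.range.relIndex (fixG u) * ((nmG n τ).range.relIndex (fixG τ) *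
        ((nmG n u).range ⊔ (fixG s).map φ).relIndex (fixG u)) := by
    calc φ.range.relIndex (fixG u) * (dfG τ).range.relIndex (nmG n τ).ker
        = ((fixG s).map φ).relIndex (nmG n u).range *
            ((nmG n u).range ⊔ (fixG s).map φ).relIndex (fixG u) := by
          rw [e3, mul_comm]
      _ ≤ (φ.range.relIndex (fixG u) * (nmG n τ).range.relIndex (fixG τ)) *
            ((nmG n u).range ⊔ (fixG s).map φ).relIndex (fixG u) := Nat.mul_le_mul_right _ e5
      _ = _ := by rw [mul_assoc]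
  exact Nat.le_of_mul_le_mul_left e6 (Nat.pos_of_ne_zero hp0)

end Pool.Agent.Helper79.SDL.HXG
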